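import Mathlib

/-! Convexity of the abandonment rate of the Erlang A queue in the arrival rate. -/

open Filter Topology Finset Set
open scoped ContDiff

namespace Pool.Agent.H.MP_e714e3_pr

noncomputable def w (d : ℕ → ℝ) (x : ℝ) (i : ℕ) : ℝ := ∏ j ∈ range i, x / d (j + 1)

noncomputable def S (d f : ℕ → ℝ) (x : ℝ) : ℝ := ∑' i, w d x i * f i

def Good (d f : ℕ → ℝ) : Prop := ∀ x > 0, Summable fun i => w d x i * |f i|

structure Su (d r : ℕ → ℝ) (m : ℕ) (μ ν κ : ℝ) : Prop where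
  m1 : 1 ≤ m
  μ0 : 0 < μ
  μν : μ ≤ ν
  κ0 : 0 < κ
  sm : StrictMono d
  lo : ∀ i : ℕ, κ * i ≤ d i
  dl : ∀ i ≤ m, d i = i * ν
  rl : ∀ i, r i = (min i m : ℕ) * μ

lemma w_eq (d x i) : w d x i = w d 1 i * x ^ i := by simp [w, div_eq_mul_inv, prod_mul_distrib, mul_comm]

lemma hs {f g : ℕ → ℝ} {a b : ℝ} (h : HasSum f a) (e : ∀ i, g i = f i) (t : b = a) : HasSum g b :=
  t ▸ funext e ▸ h

namespace Su
variable {d r : ℕ → ℝ} {m : ℕ} {μ ν κ : ℝ} (h : Su d r m μ ν κ)
include h

lemma d0 : d 0 = 0 := by simpa using h.dl 0 m.zero_le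

lemma dp (i : ℕ) : 0 < d (i + 1) := h.d0 ▸ h.sm i.succ_pos

lemma wp {x : ℝ} (hx : 0 < x) (i : ℕ) : 0 < w d x i := prod_pos fun j _ => div_pos hx (h.dp j)

lemma ws (x : ℝ) (i : ℕ) : w d x (i + 1) * d (i + 1) = x * w d x i := by
  rw [w, prod_range_succ, mul_assoc, div_mul_cancel₀ _ (h.dp i).ne', mul_comm, w]

lemma bdd {f : ℕ → ℝ} {C : ℝ} (b : ∀ i, |f i| ≤ C) : Good d f := fun x hx => by
  refine ((Real.summable_pow_div_factorial (x / κ)).mul_right C).of_nonneg_of_le
    (fun i => mul_nonneg (h.wp hx i).le (abs_nonneg _)) fun i => mul_le_mul ?_ (b i) (abs_nonneg _)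
      (by have := h.κ0; positivity)
  have := h.κ0
  induction i with
  | zero => simp [w]
  | succ i ih =>
    rw [w, prod_range_succ, Nat.factorial_succ, pow_succ, Nat.cast_mul, mul_comm ((i + 1 : ℕ) : ℝ), ← div_mul_div_comm,
      div_div x]
    exact mul_le_mul ih (div_le_div_of_nonneg_left hx.le (by positivity) (h.lo _)) (div_pos hx (h.dp i)).le
      (by positivity)

lemma gN {f : ℕ → ℝ} (g : Good d f) : Good d fun i => i * f i := fun x hx => by
  refine (g (2 * x) (by positivity)).of_nonneg_of_le (fun i => mul_nonneg (h.wp hx i).le (abs_nonneg _)) fun i => ?_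
  have a : (i : ℝ) ≤ 2 ^ i := by exact_mod_cast Nat.lt_two_pow_self.le
  rw [abs_mul, Nat.abs_cast, w_eq, w_eq d (2 * x), mul_pow]
  nlinarith [mul_nonneg (mul_nonneg (h.wp one_pos i).le (pow_pos hx i).le) (abs_nonneg (f i))]

lemma sb {f : ℕ → ℝ} (g : Good d f) {x : ℝ} (hx : 0 < x) : Summable fun i => w d x i * f i :=
  (g x hx).of_norm_bounded fun i => by rw [norm_mul, Real.norm_of_nonneg (h.wp hx i).le, Real.norm_eq_abs]

lemma der {f : ℕ → ℝ} (g : Good d f) {x : ℝ} (hx : 0 < x) : HasDerivAt (S d f) (S d (fun i => i * f i) x / x) x := by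
  have := hasDerivAt_tsum_of_isPreconnected (t := Ioo (x / 2) (2 * x)) (y₀ := x) (y := x)
    (g := fun i y => w d y i * f i) (g' := fun i y => w d y i * (i * f i) / y)
    ((h.gN g (2 * x) (by positivity)).div_const (x / 2)) isOpen_Ioo isPreconnected_Ioo (fun i y t => ?_)
    (fun i y t => ?_) ⟨by linarith, by linarith⟩ (h.sb g hx) ⟨by linarith, by linarith⟩
  · rwa [tsum_div_const] at this
  · have y0 : y ≠ 0 := by linarith [t.1] |> ne_of_gt
    rw [funext fun y => congrArg (· * f i) (w_eq d y i), w_eq d y i]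
    refine (((hasDerivAt_pow i y).const_mul (w d 1 i)).mul_const (f i)).congr_deriv ?_
    cases i with
    | zero => simp
    | succ i => simp only [add_tsub_cancel_right, pow_succ]; field_simp
  · have y0 : 0 < y := by linarith [t.1]
    rw [norm_div, norm_mul, Real.norm_of_nonneg (h.wp y0 i).le, Real.norm_eq_abs, Real.norm_of_nonneg y0.le,
      w_eq, w_eq d (2 * x)]
    have := (h.wp one_pos i).le
    gcongr
    exacts [t.2.le, t.1.le]

lemma cd (n : ℕ) : ∀ {f : ℕ → ℝ}, Good d f → ContDiffOn ℝ n (S d f) (Ioi 0) := by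
  induction n with
  | zero => exact fun g => contDiffOn_zero.2 fun x t => (h.der g t).continuousAt.continuousWithinAt
  | succ n ih =>
    rw [Nat.cast_succ]
    refine fun g => (contDiffOn_succ_iff_deriv_of_isOpen isOpen_Ioi).2
      ⟨fun x t => (h.der g t).differentiableAt.differentiableWithinAt, by simp, ?_⟩
    exact ((ih (h.gN g)).div contDiffOn_id fun x t => ne_of_gt t).congr fun x t => (h.der g t).deriv

lemma g1 : Good d fun _ => 1 := h.bdd (C := 1) (by simp)

lemma gr : Good d r := h.bdd (C := m * μ) fun i => by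
  have := h.μ0
  rw [h.rl, abs_of_nonneg (by positivity)]
  exact mul_le_mul_of_nonneg_right (Nat.cast_le.2 (min_le_right _ _)) this.le

lemma Z0 {x : ℝ} (hx : 0 < x) : 0 < S d (fun _ => 1) x :=
  (h.sb h.g1 hx).tsum_pos (fun i => by simpa using (h.wp hx i).le) 0 (by simpa using h.wp hx 0)

lemma bal {x : ℝ} (hx : 0 < x) : HasSum (fun i => w d x i * d i) (x * S d (fun _ => 1) x) := by
  rw [← hasSum_nat_add_iff' 1]
  simpa [h.ws, h.d0, S] using (h.sb h.g1 hx).hasSum.mul_left x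

lemma key {x : ℝ} (hx : 0 < x) : ∃ v : ℕ → ℝ, StrictAnti v ∧ (∀ i, 0 < v i) ∧ v 0 < 1 ∧
    ∀ φ : ℕ → ℝ, Good d φ → Good d (fun i => φ i * r i) → Good d (fun i => φ (i + 1)) →
      S d (fun i => φ i * r i) x - S d r x / S d (fun _ => 1) x * S d φ x =
        x * S d (fun i => (φ (i + 1) - φ i) * v i) x := by
  have Z := h.Z0 hx
  have W := h.wp hx
  have μ0 := h.μ0
  have μν := h.μν
  obtain ⟨g, hg⟩ : ∃ g, g = S d r x / S d (fun _ => 1) x := ⟨_, rfl⟩
  rw [← hg]
  have s1 := h.sb h.g1 hx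
  have sr := h.sb h.gr hx
  have gm : g < m * μ := by
    rw [hg, div_lt_iff₀ Z, S, S, ← tsum_mul_left]
    refine sr.tsum_lt_tsum (i := 0) (fun i => ?_) ?_ (s1.mul_left _)
    · simp only [h.rl, mul_one, mul_comm (m * μ : ℝ)]
      exact mul_le_mul_of_nonneg_left (mul_le_mul_of_nonneg_right (Nat.cast_le.2 (min_le_right _ _)) μ0.le) (W i).le
    · have : (0 : ℝ) < m := by exact_mod_cast h.m1
      simp [h.rl, w, this, μ0]
  have gx : ν * g < μ * x := by
    rw [hg, ← mul_div_assoc, div_lt_iff₀ Z, mul_assoc, ← (h.bal hx).tsum_eq, S, ← tsum_mul_left, ← tsum_mul_left]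
    have a (i : ℕ) : ν * (w d x i * r i) = μ * (w d x i * d (min i m)) := by
      rw [h.rl, h.dl _ (min_le_right _ _)]; ring
    simp only [a]
    refine (by simpa only [a] using sr.mul_left ν : Summable _).tsum_lt_tsum (i := m + 1) (fun i => ?_) ?_
      ((h.bal hx).summable.mul_left _)
    · exact mul_le_mul_of_nonneg_left (mul_le_mul_of_nonneg_left (h.sm.monotone (min_le_left _ _)) (W i).le) μ0.le
    · exact mul_lt_mul_of_pos_left (mul_lt_mul_of_pos_left (h.sm (by omega)) (W _)) μ0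
  obtain ⟨p, hp⟩ : ∃ p : ℕ → ℝ, ∀ i, p i = ∑ j ∈ range i, w d x j * (g - r j) := ⟨_, fun _ => rfl⟩
  obtain ⟨v, hv⟩ : ∃ v : ℕ → ℝ, ∀ i, v i = p (i + 1) / (x * w d x i) := ⟨_, fun _ => rfl⟩
  have pv (i) : p (i + 1) = x * (w d x i * v i) := by have := W i; rw [hv]; field_simp
  have ps (i) : p (i + 1) = p i + w d x i * (g - r i) := by rw [hp, hp, sum_range_succ]
  have rc (i) : x * v (i + 1) = d (i + 1) * v i + g - r (i + 1) := by
    have a := ps (i + 1)
    rw [pv, pv, ← mul_assoc x (w d x i), ← h.ws] at a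
    exact mul_left_cancel₀ (W (i + 1)).ne' (by linarith)
  have v0 : x * v 0 = g := by simpa [hp, w, h.rl] using (pv 0).symm
  have tl (i) (l : m ≤ i + 1) : v i = (m * μ - g) / x * ∑' k, w d x (k + (i + 1)) / w d x i := by
    have a : HasSum (fun j => w d x j * (g - r j)) 0 := hs ((s1.hasSum.mul_left g).sub sr.hasSum) (fun _ => by ring)
      (hg ▸ sub_eq_zero.2 (div_mul_cancel₀ _ Z.ne')).symm
    have b := ((hasSum_nat_add_iff' (i + 1)).2 a).tsum_eq
    rw [tsum_congr (g := fun k => w d x (k + (i + 1)) * (g - m * μ)) fun k => by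
      rw [h.rl, min_eq_right (by omega)], tsum_mul_right] at b
    rw [tsum_div_const, hv, hp, div_mul_div_comm]
    congr 1
    linarith
  have st (i) : Summable fun k => w d x (k + (i + 1)) / w d x i :=
    ((summable_nat_add_iff (f := w d x) (i + 1)).2 (by simpa using s1)).div_const _
  have lo (i) : i + 1 ≤ m → v (i + 1) < v i ∧ ν * v (i + 1) < μ := by
    induction i with
    | zero =>
      intro l
      have a := rc 0
      rw [h.dl _ l, h.rl, min_eq_left l] at a
      have b : ν * v 0 < μ := lt_of_mul_lt_mul_right (a := x) (by rw [mul_assoc, mul_comm _ x, v0]; exact gx) hx.le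
      have c : v 1 < v 0 := lt_of_mul_lt_mul_left (a := x) (by push_cast at a; linarith) hx.le
      exact ⟨c, (mul_lt_mul_of_pos_left c (μ0.trans_le μν)).trans b⟩
    | succ i ih =>
      intro l
      obtain ⟨b, c⟩ := ih (by omega)
      have a := rc i
      have a' := rc (i + 1)
      rw [h.dl (i + 1) (by omega), h.rl, min_eq_left (show i + 1 ≤ m by omega)] at a
      rw [h.dl _ l, h.rl, min_eq_left l] at a'
      push_cast at a a'
      have e : v (i + 1 + 1) < v (i + 1) := lt_of_mul_lt_mul_left (a := x) (by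
        linarith [mul_pos (mul_pos (show (0 : ℝ) < i + 1 by positivity) (μ0.trans_le μν)) (sub_pos.2 b)]) hx.le
      exact ⟨e, (mul_lt_mul_of_pos_left e (μ0.trans_le μν)).trans c⟩
  have c0 : 0 < (m * μ - g) / x := div_pos (sub_pos.2 gm) hx
  have sa : StrictAnti v := strictAnti_nat_of_succ_lt fun i => by
    rcases le_total (i + 1) m with l | l
    · exact (lo i l).1
    rw [tl i l, tl _ (by omega)]
    have a (k) : w d x (k + (i + 1 + 1)) / w d x (i + 1) < w d x (k + (i + 1)) / w d x i := by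
      have e1 := h.ws x (k + (i + 1))
      have e2 := h.ws x i
      have := h.sm (show i + 1 < k + (i + 1) + 1 by omega)
      rw [div_lt_div_iff₀ (W _) (W _), ← add_assoc k]
      refine lt_of_mul_lt_mul_right (a := d (k + (i + 1) + 1)) ?_ (h.dp _).le
      rw [mul_right_comm, e1, mul_right_comm, ← e2]
      nlinarith [mul_pos (W (i + 1)) (W (k + (i + 1)))]
    exact mul_lt_mul_of_pos_left ((st _).tsum_lt_tsum (i := 0) (fun k => (a k).le) (a 0) (st _)) c0
  have vp (i) : 0 < v i := lt_of_lt_of_le (by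
    rw [tl (i + m) (by omega)]
    exact mul_pos c0 ((st _).tsum_pos (fun k => (div_pos (W _) (W _)).le) 0 (div_pos (W _) (W _))))
    (sa.antitone (Nat.le_add_right i m))
  have v1 : v 0 < 1 := lt_of_mul_lt_mul_left (a := x) (by nlinarith [vp 0]) hx.le
  refine ⟨v, sa, vp, v1, fun φ a b c => ?_⟩
  have q {ψ : ℕ → ℝ} (e : Good d ψ) : Summable fun i => w d x i * (ψ i * v i) :=
    (e x hx).of_norm_bounded fun i => by
      rw [norm_mul, norm_mul, Real.norm_of_nonneg (W i).le, Real.norm_of_nonneg (vp i).le, Real.norm_eq_abs]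
      exact mul_le_mul_of_nonneg_left (mul_le_of_le_one_right (abs_nonneg _) ((sa.antitone i.zero_le).trans v1.le))
        (W i).le
  have e1 : HasSum (fun i => φ i * p i) (x * ∑' i, w d x i * (φ (i + 1) * v i)) := by
    rw [← hasSum_nat_add_iff' 1]
    exact hs ((q c).hasSum.mul_left x) (fun i => by rw [pv]; ring) (by simp [hp])
  have e2 := (h.sb b hx).hasSum.sub ((h.sb a hx).hasSum.mul_left g)
  have e3 := e1.sub ((q a).hasSum.mul_left x)
  have e4 := (hs (g := fun i => w d x i * ((φ (i + 1) - φ i) * v i)) ((q c).hasSum.sub (q a).hasSum)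
    (fun i => by ring) rfl).tsum_eq
  rw [S, S, S, e4, mul_sub]
  exact e2.unique (hs e3 (fun i => by linear_combination φ i * ps i - φ i * pv i) rfl)

noncomputable def G (d r : ℕ → ℝ) (x : ℝ) : ℝ := S d r x / S d (fun _ => 1) x

noncomputable def G1 (d r : ℕ → ℝ) (x : ℝ) : ℝ :=
  (S d (fun i => i * r i) x / x * S d (fun _ => 1) x - S d r x * (S d (fun i => i * 1) x / x)) / S d (fun _ => 1) x ^ 2

lemma dG {x : ℝ} (hx : 0 < x) : HasDerivAt (G d r) (G1 d r x) x :=
  (h.der h.gr hx).div (h.der h.g1 hx) (h.Z0 hx).ne'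

lemma dG1 {x : ℝ} (hx : 0 < x) : (0 < G1 d r x ∧ G1 d r x < 1) ∧ ∃ y < 0, HasDerivAt (G1 d r) y x := by
  obtain ⟨v, sa, vp, v1, k⟩ := h.key hx
  have Z := h.Z0 hx
  have W := h.wp hx
  have n1 := h.gN h.g1
  have ad {f g : ℕ → ℝ} (a : Good d f) (b : Good d g) : Good d fun i => f i + g i := fun y t =>
    ((a y t).add (b y t)).of_nonneg_of_le (fun i => mul_nonneg (h.wp t i).le (abs_nonneg _)) fun i => by
      rw [← mul_add]
      exact mul_le_mul_of_nonneg_left (abs_add_le _ _) (h.wp t i).le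
  have gv : Good d v := h.bdd (C := 1) fun i => by rw [abs_of_pos (vp i)]; exact (sa.antitone i.zero_le).trans v1.le
  have k1 := k (fun i => i * 1) n1 (by simpa using h.gN h.gr) (by simpa using ad n1 h.g1)
  have k2 := k (fun i => i * (i * 1)) (h.gN n1) (by simpa [mul_assoc] using h.gN (h.gN h.gr))
    (by convert ad (ad (h.gN n1) n1) (ad n1 h.g1) using 2; push_cast; ring)
  have e : S d (fun i => (((i + 1 : ℕ) : ℝ) * (((i + 1 : ℕ) : ℝ) * 1) - i * (i * 1)) * v i) x =
      2 * S d (fun i => i * v i) x + S d v x := by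
    exact (hs (((h.sb (h.gN gv) hx).hasSum.mul_left 2).add (h.sb gv hx).hasSum) (fun i => by push_cast; ring) rfl).tsum_eq
  rw [e] at k2
  simp only [mul_one, Nat.cast_succ, add_sub_cancel_left, one_mul, mul_assoc] at k1 k2
  have ch : S d (fun i => i * v i) x * S d (fun _ => 1) x < S d v x * S d (fun i => i) x := by
    set c := S d (fun i => i) x / S d (fun _ => 1) x with hc
    have c0 : 0 ≤ c := div_nonneg (tsum_nonneg fun i => mul_nonneg (W i).le i.cast_nonneg) Z.le
    have a := ((h.sb (h.gN gv) hx).hasSum.sub ((h.sb gv hx).hasSum.mul_left c)).sub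
      (((h.sb n1 hx).hasSum.sub ((h.sb h.g1 hx).hasSum.mul_left c)).mul_left (v ⌊c⌋₊))
    have t (i : ℕ) : w d x i * (i * v i) - c * (w d x i * v i) - v ⌊c⌋₊ * (w d x i * (i * 1) - c * (w d x i * 1)) =
      w d x i * ((i - c) * (v i - v ⌊c⌋₊)) := by ring
    simp only [t] at a
    have u (i : ℕ) (l : ⌊c⌋₊ < i) : w d x i * ((i - c) * (v i - v ⌊c⌋₊)) < 0 :=
      mul_neg_of_pos_of_neg (W i) (mul_neg_of_pos_of_neg (sub_pos.2 ((Nat.floor_lt c0).1 l)) (sub_neg.2 (sa l)))
    have b := hasSum_lt (i := ⌊c⌋₊ + 1) (fun i => ?_) (u _ (Nat.lt_succ_self _)) a hasSum_zero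
    · change S d (fun i => i * v i) x - c * S d v x - _ * (S d (fun i => i * 1) x - c * S d (fun _ => 1) x) < 0 at b
      simp only [mul_one] at b
      rw [hc, div_mul_cancel₀ _ Z.ne', sub_self, mul_zero, sub_zero, sub_neg, div_mul_eq_mul_div, lt_div_iff₀ Z] at b
      linarith
    · rcases lt_or_ge ⌊c⌋₊ i with l | l
      · exact (u i l).le
      · exact mul_nonpos_of_nonneg_of_nonpos (W i).le (mul_nonpos_of_nonpos_of_nonneg
          (sub_nonpos.2 ((Nat.le_floor_iff c0).1 l)) (sub_nonneg.2 (sa.antitone l)))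
  have b1 := eq_add_of_sub_eq k1
  have b2 := eq_add_of_sub_eq k2
  have g1 : G1 d r x = S d v x / S d (fun _ => 1) x := by
    simp only [G1, mul_one, b1]
    field_simp
    ring
  refine ⟨g1 ▸ ⟨div_pos ((h.sb gv hx).tsum_pos (fun i => (mul_pos (W i) (vp i)).le) 0 (mul_pos (W 0) (vp 0))) Z,
    (div_lt_one Z).2 ((h.sb gv hx).tsum_lt_tsum (i := 0) (fun i => mul_le_mul_of_nonneg_left
      ((sa.antitone i.zero_le).trans v1.le) (W i).le) (mul_lt_mul_of_pos_left v1 (W 0)) (h.sb h.g1 hx))⟩,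
    2 * (S d (fun i => i * v i) x * S d (fun _ => 1) x - S d v x * S d (fun i => i) x) / (x * S d (fun _ => 1) x ^ 2),
    div_neg_of_neg_of_pos (by linarith) (by positivity), ?_⟩
  refine (((((h.der (h.gN h.gr) hx).div (hasDerivAt_id x) hx.ne').mul (h.der h.g1 hx)).sub ((h.der h.gr hx).mul
    ((h.der n1 hx).div (hasDerivAt_id x) hx.ne'))).div ((h.der h.g1 hx).pow 2) (pow_pos Z 2).ne').congr_deriv ?_
  simp only [mul_one, id, Pi.div_apply, Pi.mul_apply, Pi.sub_apply, Pi.pow_apply, b1, b2]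
  field_simp
  ring

theorem main {l : ℝ → ℝ} (e : ∀ x, l x = (∑' i, w d x i * (d i - r i)) / ∑' i, w d x i) :
    (∀ x > 0, Summable (w d x) ∧ Summable fun i => w d x i * (d i - r i)) ∧ StrictMonoOn l (Ioi 0) ∧
      StrictConvexOn ℝ (Ioi 0) l ∧ ContDiffOn ℝ ∞ l (Ioi 0) ∧ StrictMonoOn (deriv l) (Ioi 0) ∧
      Tendsto (deriv l) atTop (𝓝 1) := by
  have s (x) (hx : 0 < x) : HasSum (fun i => w d x i * (d i - r i)) (x * S d (fun _ => 1) x - S d r x) :=
    hs ((h.bal hx).sub (h.sb h.gr hx).hasSum) (fun _ => mul_sub _ _ _) rfl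
  have e1 (x) (hx : x ∈ Ioi (0 : ℝ)) : l x = x - G d r x := by
    have := (h.Z0 hx).ne'
    rw [e, (s x hx).tsum_eq, show ∑' i, w d x i = S d (fun _ => 1) x by simp [S], G]
    field_simp
  have dl (x) (hx : x ∈ Ioi (0 : ℝ)) : HasDerivAt l (1 - G1 d r x) x :=
    ((hasDerivAt_id x).sub (h.dG hx)).congr_of_eventuallyEq (mem_of_superset (Ioi_mem_nhds hx) e1)
  have c : ContinuousOn l (Ioi 0) := fun x t => (dl x t).continuousAt.continuousWithinAt
  have an : StrictAntiOn (G1 d r) (Ioi 0) := strictAntiOn_of_deriv_neg (convex_Ioi 0)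
    (fun x t => (h.dG1 t).2.choose_spec.2.continuousAt.continuousWithinAt) fun x t => by
      obtain ⟨y, a, b⟩ := (h.dG1 (interior_subset t)).2
      rwa [b.deriv]
  have mo : StrictMonoOn (deriv l) (Ioi 0) := fun x a y b t => by
    rw [(dl x a).deriv, (dl y b).deriv]
    linarith [an a b t]
  refine ⟨fun x t => ⟨by simpa using h.sb h.g1 t, (s x t).summable⟩, strictMonoOn_of_deriv_pos (convex_Ioi 0) c
    fun x t => ?_, (mo.mono interior_subset).strictConvexOn_of_deriv (convex_Ioi 0) c, ?_, mo, ?_⟩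
  · rw [(dl x (interior_subset t)).deriv]
    linarith [(h.dG1 (interior_subset t)).1.2]
  · exact (contDiffOn_infty.2 fun n => contDiffOn_id.sub ((h.cd n h.gr).div (h.cd n h.g1)
      fun x t => (h.Z0 t).ne')).congr e1
  have b (x) (hx : 0 < x) : 0 ≤ G d r x ∧ G d r x ≤ m * μ := by
    have μ0 := h.μ0
    refine ⟨div_nonneg (tsum_nonneg fun i => mul_nonneg (h.wp hx i).le (by rw [h.rl]; positivity)) (h.Z0 hx).le, ?_⟩
    rw [G, div_le_iff₀ (h.Z0 hx), S, S, ← tsum_mul_left]
    refine (h.sb h.gr hx).tsum_le_tsum (fun i => ?_) ((h.sb h.g1 hx).mul_left _)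
    simp only [h.rl, mul_one, mul_comm (m * μ : ℝ)]
    exact mul_le_mul_of_nonneg_left (mul_le_mul_of_nonneg_right (Nat.cast_le.2 (min_le_right _ _)) μ0.le) (h.wp hx i).le
  have T : Tendsto (G1 d r) atTop (𝓝 0) := by
    refine squeeze_zero' ((eventually_gt_atTop 0).mono fun x t => (h.dG1 t).1.1.le)
      ((eventually_gt_atTop 0).mono fun x t => ?_) (tendsto_id.const_div_atTop (2 * (m * μ)))
    obtain ⟨y, a, q⟩ := exists_hasDerivAt_eq_slope (G d r) (G1 d r) (half_lt_self t)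
      (fun y a => (h.dG (by linarith [a.1])).continuousAt.continuousWithinAt) fun y a => h.dG (by linarith [a.1])
    refine (an (show 0 < y by linarith [a.1]) t a.2).le.trans (q.trans_le ?_)
    rw [id, div_le_div_iff₀ (by linarith) t]
    nlinarith [(b x t).2, (b (x / 2) (by linarith)).1]
  exact (by simpa using T.const_sub 1 : Tendsto (fun x => 1 - G1 d r x) atTop (𝓝 1)).congr'
    ((eventually_gt_atTop 0).mono fun x t => (dl x t).deriv.symm)

end Su

noncomputable def L (dbs : Bool) (m : ℕ) (θ : ℝ) (i : ℕ) : ℝ := if dbs then max (i - m : ℝ) 0 * θ else i * θ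

noncomputable def dr (dbs : Bool) (m : ℕ) (μ θ : ℝ) (i : ℕ) : ℝ := min (i : ℝ) m * μ + L dbs m θ i

lemma su (dbs : Bool) {m : ℕ} {μ θ : ℝ} (hm : 1 ≤ m) (hμ : 0 < μ) (hθ : 0 < θ) :
    Su (dr dbs m μ θ) (fun i => min (i : ℝ) m * μ) m μ (if dbs then μ else μ + θ) (min μ θ) := by
  have a := min_le_left μ θ
  have b := min_le_right μ θ
  refine ⟨hm, hμ, by split_ifs <;> linarith, lt_min hμ hθ, strictMono_nat_of_lt_succ fun i => ?_, fun i => ?_,
    fun i l => ?_, fun i => by simp⟩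
  · rcases lt_or_ge i m with l | l
    · have l1 : (i : ℝ) + 1 ≤ m := by exact_mod_cast l
      cases dbs <;> simp [dr, L, l1, l.le, sub_nonpos.2 l1] <;> linarith
    · have l1 : (m : ℝ) ≤ i := by exact_mod_cast l
      have l2 : (m : ℝ) ≤ i + 1 := by linarith
      cases dbs <;> simp [dr, L, l, l2, hθ]
  · have i0 : (0 : ℝ) ≤ i := i.cast_nonneg
    have m0 : (0 : ℝ) ≤ m := m.cast_nonneg
    rcases le_total (i : ℝ) m with l | l
    · cases dbs <;> simp only [dr, L, min_eq_left l, max_eq_right (sub_nonpos.2 l), if_true, Bool.false_eq_true,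
        if_false] <;> nlinarith
    · cases dbs <;> simp only [dr, L, min_eq_right l, max_eq_left (sub_nonneg.2 l), if_true, Bool.false_eq_true,
        if_false] <;> nlinarith
  · cases dbs <;> simp [dr, L, l, mul_add]

theorem main (dbs : Bool) {m : ℕ} {μ θ : ℝ} (hm : 1 ≤ m) (hμ : 0 < μ) (hθ : 0 < θ) {l : ℝ → ℝ}
    (e : ∀ x, l x = (∑' i, w (dr dbs m μ θ) x i * L dbs m θ i) / ∑' i, w (dr dbs m μ θ) x i) :
    (∀ x > 0, Summable (w (dr dbs m μ θ) x) ∧ Summable fun i => w (dr dbs m μ θ) x i * L dbs m θ i) ∧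
      StrictMonoOn l (Ioi 0) ∧ StrictConvexOn ℝ (Ioi 0) l ∧ ContDiffOn ℝ ∞ l (Ioi 0) ∧
      StrictMonoOn (deriv l) (Ioi 0) ∧ Tendsto (deriv l) atTop (𝓝 1) := by
  have := (su dbs hm hμ hθ).main (l := l) (by simpa [dr] using e)
  simpa [dr] using this

end Pool.Agent.H.MP_e714e3_pr
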